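import Mathlib
import Pool.Agent.H3.Frg4.Defs4
import Pool.Agent.H3.Frg2.Defs

set_option autoImplicit false

/-!
# Extension axioms: the definitions used in the statement
-/

namespace Pool.Agent.H90.PC

open Pool.Agent.H3.Frg Pool.Agent.H3.Frg2

/-- the extension axioms `q_j → D_j` and `D_j → q_j` -/
def ExtAx {K : ℕ} (q : Fin K → ℕ) (D : Fin K → Fm ℕ) : Set (Fm ℕ) :=
  {A | ∃ j, A = Fm.imp (Fm.var (q j)) (D j) ∨ A = Fm.imp (D j) (Fm.var (q j))}

/-- admissible definitions: the extension variables `q_j` are different, they do not occur in `τ`,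
and `q_j` does not occur in `D_i` for `i ≤ j` -/
def ExtOK {K : ℕ} (τ : Fm ℕ) (q : Fin K → ℕ) (D : Fin K → Fm ℕ) : Prop :=
  Function.Injective q ∧ (∀ j, Fm.var (q j) ∉ τ.subs) ∧ ∀ i j, i ≤ j → Fm.var (q j) ∉ (D i).subs

end Pool.Agent.H90.PC
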