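import Mathlib
import Pool.Agent.H90.PC.Nod
import Pool.Agent.H90.PE.StmtE

set_option autoImplicit false
set_option linter.unusedSectionVars false

/-!
# Module CND: conditional pseudo-evaluations and the choice of the values of the extension variables
-/

namespace Pool.Agent.H90.PC

open Finset Pool.Agent.H3.Frg Pool.Agent.H3.Frg2 Pool.Agent.H3.Frg3 Pool.Agent.H3.Frg4

variable {X V : Type}

/-- the pseudo-evaluation under the condition `I` -/
def cnd (P : PA X) (I : X → ℝ) (m : ℕ) (hI : P.Dg I m) (h1 : ¬ P.Z I) (hm : m ≤ P.M) : PA X where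
  Dg := P.Dg
  Z := fun g => P.Z (fun z => I z * g z)
  M := P.M - m
  dg_mono := P.dg_mono
  dg_const := P.dg_const
  dg_add := P.dg_add
  dg_smul := P.dg_smul
  dg_mul := P.dg_mul
  z_zero := P.z_congr P.z_zero (by intro z; ring)
  z_add := fun h h' => P.z_congr (P.z_add h h') (by intro z; ring)
  z_smul := fun c h => P.z_congr (P.z_smul c h) (by intro z; ring)
  z_mul := fun {p h a b} hp hpa hb hab =>
    P.z_congr (P.z_mul (a := m + a) (b := b) hp (P.dg_mul hI hpa) hb (by omega))
      (by intro z; ring)
  z_one := fun h => h1 (P.z_congr h (by intro z; ring))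

theorem cnd_Z {P : PA X} {I : X → ℝ} {m : ℕ} (hI : P.Dg I m) (h1 : ¬ P.Z I) (hm : m ≤ P.M)
    {g : X → ℝ} {a : ℕ} (hg : P.Z g) (hga : P.Dg g a) (ham : a + m ≤ P.M) :
    (cnd P I m hI h1 hm).Z g := P.z_mul hg hga hI ham

open Classical in
/-- values of small degree for the variables -/
noncomputable def rxF (P : PA X) (F : V → X → Bool) (k : ℕ) (i : V) : X → Bool :=
  if h : ∃ r, CE P F k (Fm.var i) r then h.choose else fun _ => false

theorem rxF_spec {P : PA X} {F : V → X → Bool} {k : ℕ} {i : V} {p : X → Bool}
    (h : CE P F k (Fm.var i) p) : CE P F k (Fm.var i) (rxF P F k i) := by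
  have h1 : ∃ r, CE P F k (Fm.var i) r := ⟨p, h⟩
  unfold rxF
  rw [dif_pos h1]
  exact h1.choose_spec

theorem ce_cnd {P : PA X} {F : V → X → Bool} {k : ℕ} {I : X → ℝ} {m : ℕ} (hI : P.Dg I m)
    (h1 : ¬ P.Z I) (hm : m ≤ P.M) (hM : 2 * k + m ≤ P.M) (A : Fm V) :
    ∀ p, CE P F k A p → CE (cnd P I m hI h1 hm) (rxF P F k) k A p := by
  induction A with
  | var i =>
    intro p hp
    refine ⟨hp.1, ?_⟩
    have h2 := rxF_spec hp
    have h3 : P.Peq (rl p) (rl (rxF P F k i)) := P.peq_trans hp.2 (P.peq_symm h2.2)
    exact cnd_Z hI h1 hm h3 (P.dg_sub hp.1 h2.1) (by omega)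
  | neg A ih =>
    intro p hp
    obtain ⟨hp1, a, ha, h2⟩ := hp
    exact ⟨hp1, a, ih a ha, cnd_Z hI h1 hm h2 (P.dg_sub hp1 (P.dg_one_sub (ce_dg ha))) (by omega)⟩
  | imp A B ihA ihB =>
    intro p hp
    obtain ⟨hp1, a, b, ha, hb, h2⟩ := hp
    refine ⟨hp1, a, b, ihA a ha, ihB b hb, cnd_Z hI h1 hm h2 (P.dg_sub
      (P.dg_mono hp1 (show k ≤ k + k by omega)) (P.dg_one_sub (P.dg_mul (ce_dg ha)
        (P.dg_one_sub (ce_dg hb))))) (by omega)⟩

/-- the value of `top` or `bot` -/
def tb (v0 : V) (b : Bool) : Fm V := if b then top v0 else bot v0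

theorem ce_topP {P : PA X} {F : V → X → Bool} {k : ℕ} {v0 : V} {r : X → Bool}
    (h : CE P F k (Fm.var v0) r) : CE P F k (top v0) (fun _ => true) := by
  refine ⟨P.dg_congr (P.dg_const' 1 k) fun z => by simp [rl], r, r, h, h, ?_⟩
  refine P.z_congr P.z_zero fun z => ?_
  have := rl_sq r z
  rw [rl_true]
  linear_combination this

theorem ce_tb {P : PA X} {F : V → X → Bool} {k : ℕ} {v0 : V} {r : X → Bool}
    (h : CE P F k (Fm.var v0) r) (b : Bool) : CE P F k (tb v0 b) (fun _ => b) := by
  cases b with
  | true => exact ce_topP h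
  | false =>
    show CE P F k (bot v0) _
    refine ⟨P.dg_congr (P.dg_const' 0 k) fun z => by simp [rl], fun _ => true, ce_topP h, ?_⟩
    exact P.z_congr P.z_zero fun z => by simp [rl]

/-- choice of the values of the extension variables -/
theorem choose_vals (P : PA X) (F : V → X → Bool) (k : ℕ) {K : ℕ}
    (Dd : (Fin K → Bool) → Fin K → Fm V) (J : Set (Fin K))
    (hD : ∀ s s' j, (∀ i < j, s i = s' i) → Dd s j = Dd s' j)
    (hv : ∀ s, ∀ j ∈ J, ∃ p, CE P F k (Dd s j) p) :
    ∃ (s : Fin K → Bool) (I : X → ℝ), P.Dg I (K * k) ∧ ¬ P.Z I ∧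
      ∀ j ∈ J, ∃ p, CE P F k (Dd s j) p ∧ ∀ z, I z * (rl p z - (if s j then 1 else 0)) = 0 := by
  classical
  have key : ∀ n : ℕ, n ≤ K → ∃ (s : Fin K → Bool) (I : X → ℝ), P.Dg I (n * k) ∧ ¬ P.Z I ∧
      ∀ j ∈ J, (j : ℕ) < n → ∃ p, CE P F k (Dd s j) p ∧
        ∀ z, I z * (rl p z - (if s j then 1 else 0)) = 0 := by
    intro n
    induction n with
    | zero =>
      intro _
      refine ⟨fun _ => false, fun _ => 1, P.dg_const' 1 _, P.z_one, fun j _ hj => ?_⟩
      omega
    | succ n ih =>
      intro hn
      obtain ⟨s, I, hI, hZ, hs⟩ := ih (by omega)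
      obtain ⟨jn, hjn⟩ : ∃ jn : Fin K, jn = ⟨n, by omega⟩ := ⟨_, rfl⟩
      have hjn' : (jn : ℕ) = n := by rw [hjn]
      by_cases hJ : jn ∈ J
      · obtain ⟨p, hp⟩ := hv s jn hJ
        -- one of the two parts is not pseudo-zero
        obtain ⟨b, hb⟩ : ∃ b : Bool, ¬ P.Z (fun z => I z * (1 - (rl p z - (if b then 1 else 0)) *
            (rl p z - (if b then 1 else 0)))) := by
          by_contra hcon
          push Not at hcon
          have e1 := hcon true
          have e2 := hcon false
          apply hZ
          refine P.z_congr (P.z_add e1 e2) fun z => ?_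
          have := rl_sq p z
          simp only [if_true, Bool.false_eq_true, if_false]
          linear_combination (-2 * I z) * this
        obtain ⟨s', hs'⟩ : ∃ s' : Fin K → Bool, s' = Function.update s jn b := ⟨_, rfl⟩
        have hs'j : s' jn = b := by rw [hs', Function.update_self]
        have hs'i : ∀ i, i ≠ jn → s' i = s i := fun i hi => by
          rw [hs', Function.update_of_ne hi]
        have hDs : ∀ j : Fin K, (j : ℕ) ≤ n → Dd s' j = Dd s j := by
          intro j hj
          refine hD s' s j fun i hi => hs'i i ?_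
          intro h
          rw [h] at hi
          have : (jn : ℕ) < (j : ℕ) := hi
          omega
        refine ⟨s', fun z => I z * (1 - (rl p z - (if b then 1 else 0)) *
            (rl p z - (if b then 1 else 0))), ?_, hb, ?_⟩
        · have h2 : P.Dg (fun z => 1 - (rl p z - (if b then 1 else 0)) *
              (rl p z - (if b then 1 else 0))) k := by
            cases b with
            | true =>
              refine P.dg_congr (ce_dg hp) fun z => ?_
              have := rl_sq p z
              simp only [if_true]
              linear_combination this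
            | false =>
              refine P.dg_congr (P.dg_one_sub (ce_dg hp)) fun z => ?_
              have := rl_sq p z
              simp only [Bool.false_eq_true, if_false]
              linear_combination this
          refine P.dg_mono (P.dg_mul hI h2) ?_
          rw [Nat.succ_mul]
        · intro j hj hjlt
          by_cases hjj : j = jn
          · rw [hjj, hs'j, hDs jn (by omega)]
            refine ⟨p, hp, fun z => ?_⟩
            have := rl_sq p z
            cases b with
            | true =>
              simp only [if_true]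
              linear_combination (I z * (2 - rl p z)) * this
            | false =>
              simp only [Bool.false_eq_true, if_false]
              linear_combination (- I z * (1 + rl p z)) * this
          · have hjlt' : (j : ℕ) < n := by
              have : (j : ℕ) ≠ n := fun h => hjj (Fin.ext (by omega))
              omega
            obtain ⟨p', hp', h3⟩ := hs j hj hjlt'
            rw [hDs j (by omega), hs'i j hjj]
            refine ⟨p', hp', fun z => ?_⟩
            have h4 := h3 z
            linear_combination (1 - (rl p z - (if b then 1 else 0)) *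
            (rl p z - (if b then 1 else 0))) * h4
      · refine ⟨s, I, P.dg_mono hI (by rw [Nat.succ_mul]; omega), hZ, fun j hj hjlt => ?_⟩
        refine hs j hj ?_
        have : (j : ℕ) ≠ n := fun h => hJ (by
          have : jn = j := Fin.ext (by omega)
          rw [this]; exact hj)
        omega
  obtain ⟨s, I, h1, h2, h3⟩ := key K le_rfl
  exact ⟨s, I, h1, h2, fun j hj => h3 j hj j.isLt⟩

end Pool.Agent.H90.PC
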