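import Mathlib
import Pool.Agent.H90.PC.Core

set_option autoImplicit false
set_option linter.unusedSectionVars false

/-!
# Module CORV: the values of the lines of one derivation (as in `PC/Core.lean`), the list of the
short formulas is independent of the world
-/

namespace Pool.Agent.H90.PC

open Finset Pool.Agent.H3.Frg Pool.Agent.H3.Frg2 Pool.Agent.H3.Frg3 Pool.Agent.H3.Frg4

theorem core_val {V : Type} {Sch : Set (Fm ℕ)} {ℓ : ℕ} (hℓ : 1 ≤ ℓ)
    (hSch : ∀ ψ ∈ Sch, ψ.len ≤ ℓ)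
    {d : ℕ} {C : ℕ → Fm V} {L : ℕ} {pf : Fin L → Fm V}
    {s v S : ℕ} (hC : ∀ i, (C i).len ≤ s) (hs : s ≤ S)
    (G : Finset (Fm V)) (Q : Fin L → Finset (Fm V)) (hv : ∀ i, (Q i).card ≤ v)
    (hS : ∀ i, ∑ B ∈ Q i, B.len ≤ S) (hBC : ∀ i, BC {A | A ∈ G ∨ A ∈ Q i} (pf i))
    (hG : ∀ g ∈ G, ∀ B ∈ g.subs, B.len ≤ s ∨
      B ∈ (Fm.neg (bigAnd d C)).subs ∨ Op Sch pf B)
    {w k h : ℕ} (hh : 1 ≤ h)
    (hsize : w * (h * (2 ^ (ℓ + 1) * (G.card + 1) * (v + 1)) +
      18 * (2 ^ (ℓ + 1) * (G.card + 1) * (2 * S))) ≤ h * k) :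
    ∃ Bs : List (Fm V), (∀ B ∈ Bs, B.len ≤ S) ∧
      Bs.length ≤ (L + 2 ^ (ℓ + 1) * (G.card + 1)) * (v + 1) ∧
      ∀ (X : Type) (P : PA X) (F : V → X → Bool),
        (∀ A ∈ Bs, ∃ (p : X → Bool) (m : ℕ), CE P F k A p ∧ P.Dg (rl p) (w * m) ∧
          h * m ≤ h + 18 * A.len) →
        (∀ i < 2 ^ d, CE P F k (C i) (fun _ => true)) →
        ∀ i, ∃ p, CE P F k (pf i) p := by
  classical
  obtain ⟨τ, hτ⟩ : ∃ τ, τ = Fm.neg (bigAnd d C) := ⟨_, rfl⟩
  obtain ⟨E2, hE2⟩ : ∃ E2, E2 = 2 ^ (ℓ + 1) := ⟨_, rfl⟩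
  have hE1 : 1 ≤ E2 := by rw [hE2]; exact Nat.one_le_two_pow
  rw [← hE2] at hsize ⊢
  obtain ⟨K₀, hK₀⟩ : ∃ K₀ : Set (Fm V), K₀ = {B | B ∈ τ.subs ∧ ¬ ∃ i < 2 ^ d, B ∈ (C i).subs} :=
    ⟨_, rfl⟩
  have hs1 : 1 ≤ s := (Fm_len_pos (C 0)).trans (hC 0)
  obtain ⟨G', R, hGG, hRc, hRS, hRl, hgen⟩ := cover hℓ hSch pf G Q K₀
    hs1 hs hv hS hBC (fun g hg B hB => by
      rcases hG g hg B hB with h | h | h
      · exact Or.inl h
      · by_cases h2 : ∃ i < 2 ^ d, B ∈ (C i).subs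
        · obtain ⟨i, -, hi⟩ := h2
          exact Or.inl ((len_le_of_subs _ B hi).trans (hC i))
        · refine Or.inr (Or.inl ?_)
          rw [hK₀]
          exact ⟨by rw [hτ]; exact h, h2⟩
      · exact Or.inr (Or.inr h))
  rw [← hE2] at hRc hRS
  -- the list of short formulas
  obtain ⟨Bs, hBs⟩ : ∃ Bs : List (Fm V), Bs = R.toList ++
    (List.finRange L).flatMap (fun i => (Q i).toList) := ⟨_, rfl⟩
  have hRB : ∀ B ∈ R, B ∈ Bs := fun B hB => by
    rw [hBs]; exact List.mem_append_left _ (Finset.mem_toList.mpr hB)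
  have hQB : ∀ i, ∀ B ∈ Q i, B ∈ Bs := fun i B hB => by
    rw [hBs]
    exact List.mem_append_right _ (List.mem_flatMap.mpr
      ⟨i, List.mem_finRange i, Finset.mem_toList.mpr hB⟩)
  have hQl : ∀ i, ∀ B ∈ Q i, B.len ≤ S := fun i B hB =>
    (Finset.single_le_sum (f := fun B : Fm V => B.len) (fun _ _ => Nat.zero_le _) hB).trans (hS i)
  have hBsl : ∀ B ∈ Bs, B.len ≤ S := by
    intro B hB
    rw [hBs, List.mem_append, List.mem_flatMap] at hB
    rcases hB with hB | ⟨i, -, hB⟩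
    · exact hRl B (Finset.mem_toList.mp hB)
    · exact hQl i B (Finset.mem_toList.mp hB)
  have hlen : Bs.length ≤ (L + E2 * (G.card + 1)) * (v + 1) := by
    rw [hBs, List.length_append, Finset.length_toList]
    have h1 : ((List.finRange L).flatMap fun i => (Q i).toList).length ≤ L * v := by
      rw [List.length_flatMap]
      have h2 : ∀ x ∈ (List.finRange L).map (fun i => ((Q i).toList).length), x ≤ v := by
        intro x hx
        rw [List.mem_map] at hx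
        obtain ⟨i, -, rfl⟩ := hx
        rw [Finset.length_toList]
        exact hv i
      have h3 := List.sum_le_card_nsmul _ v h2
      rw [List.length_map, List.length_finRange, smul_eq_mul] at h3
      exact h3
    have h2 : (L + E2 * (G.card + 1)) * (v + 1) = E2 * G.card * (v + 1) + L * v + L +
      E2 * (v + 1) := by ring
    omega
  refine ⟨Bs, hBsl, hlen, ?_⟩
  intro X P F hval hC1
  choose! r m hr using hval
  obtain ⟨dg, hdg⟩ : ∃ dg : Fm V → ℕ, dg = fun B => w * m B := ⟨_, rfl⟩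
  -- degrees
  have hsum : ∀ Y : Finset (Fm V), (∀ B ∈ Y, B ∈ Bs) → Y.card ≤ E2 * (G.card + 1) * (v + 1) →
      ∑ B ∈ Y, B.len ≤ E2 * (G.card + 1) * (2 * S) → ∑ B ∈ Y, dg B ≤ k := by
    intro Y hY h1 h2
    refine Nat.le_of_mul_le_mul_left ?_ (show 0 < h by omega)
    refine le_trans ?_ hsize
    rw [Finset.mul_sum]
    have h3 : ∀ B ∈ Y, h * dg B ≤ w * (h + 18 * B.len) := by
      intro B hB
      rw [hdg]
      show h * (w * m B) ≤ _
      calc h * (w * m B) = w * (h * m B) := by ring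
        _ ≤ _ := Nat.mul_le_mul_left _ (hr B (hY B hB)).2.2
    refine (Finset.sum_le_sum h3).trans ?_
    rw [← Finset.mul_sum]
    refine Nat.mul_le_mul_left _ ?_
    rw [Finset.sum_add_distrib, Finset.sum_const, smul_eq_mul, ← Finset.mul_sum]
    refine Nat.add_le_add ?_ (Nat.mul_le_mul_left _ h2)
    rw [mul_comm]
    exact Nat.mul_le_mul_left _ h1
  have hce : ∀ B ∈ Bs, CE P F k B (r B) := fun B hB => (hr B hB).1
  have hdd : ∀ B ∈ Bs, P.Dg (rl (r B)) (dg B) := fun B hB => by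
    rw [hdg]; exact (hr B hB).2.1
  have hK : ∀ B ∈ K₀, ∃ b : Bool, CE P F k B (fun _ => b) := by
    intro B hB
    rw [hK₀] at hB
    obtain ⟨h1, h2⟩ := hB
    rw [hτ] at h1
    rcases subs_tau P F k d C hC1 B h1 with h3 | h3
    · exact absurd h3 h2
    · exact h3
  -- the formulas in `G`
  have hRk : ∑ B ∈ R, dg B ≤ k := by
    refine hsum R hRB (hRc.trans ?_) (hRS.trans ?_)
    · exact Nat.mul_le_mul_right _ (Nat.mul_le_mul_left _ (by omega))
    · exact Nat.mul_le_mul_right _ (Nat.mul_le_mul_left _ (by omega))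
  have hGv := val_gen (P := P) (F := F) (k := k) (r := r) (d := dg) hGG hgen
    (fun B hB => hce B (hRB B hB)) (fun B hB => hdd B (hRB B hB)) hRk hK
  -- the lines
  intro i
  have hU : ∀ B ∈ R ∪ Q i, B ∈ Bs := by
    intro B hB
    rcases Finset.mem_union.mp hB with hB | hB
    · exact hRB B hB
    · exact hQB i B hB
  have h1 : (R ∪ Q i).card ≤ E2 * (G.card + 1) * (v + 1) := by
    have e1 := Finset.card_union_le R (Q i)
    have e2 := hv i
    have e3 : E2 * (G.card + 1) * (v + 1) = E2 * G.card * (v + 1) + E2 * (v + 1) := by ring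
    have e4 : 1 * (v + 1) ≤ E2 * (v + 1) := Nat.mul_le_mul_right _ hE1
    omega
  have h2 : ∑ B ∈ R ∪ Q i, B.len ≤ E2 * (G.card + 1) * (2 * S) := by
    have e1 : ∑ B ∈ R ∪ Q i, B.len ≤ ∑ B ∈ R, B.len + ∑ B ∈ Q i, B.len := by
      rw [← Finset.sum_union_inter]
      exact Nat.le_add_right _ _
    have e2 := hS i
    have e3 : E2 * (G.card + 1) * (2 * S) = E2 * G.card * (2 * S) + E2 * (2 * S) := by ring
    have e4 : 1 * (2 * S) ≤ E2 * (2 * S) := Nat.mul_le_mul_right _ hE1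
    omega
  have h3 := hsum _ hU h1 h2
  obtain ⟨p, hp, -⟩ := val_bc (P := P) (F := F) (k := k) (R := R ∪ Q i) (r := r) (d := dg)
    (fun B hB => hdd B (hU B hB)) h3 (hBC i) (fun B hB _ => by
      rcases hB with hB | hB
      · obtain ⟨p, hp1, hp2⟩ := hGv B (hGG hB)
        exact ⟨p, hp1, fnOf_mono Finset.subset_union_left hp2⟩
      · exact ⟨r B, hce B (hQB i B hB), fun z z' hz => hz B (Finset.mem_union_right _ hB)⟩)
  exact ⟨p, hp⟩

end Pool.Agent.H90.PC
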