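import Mathlib
import Pool.Agent.H90.PE.Cnd
import Pool.Agent.H90.PE.CorV

set_option autoImplicit false
set_option linter.unusedSectionVars false

/-!
# Module CORE-E: if every list of short formulas has a world, there is no extended derivation

The derivation is given as a family `pf a`, `a : Fin K → Bool` the values of the extension variables.
All lines of all members of the family get values in one world; `choose_vals` gives `a` and a
condition `I` of degree `K * k` such that the definitions of the extension variables have the values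
`a` under the condition; `no_der` for `pf a` in the conditional world.
-/

namespace Pool.Agent.H90.PC

open Finset Pool.Agent.H3.Frg Pool.Agent.H3.Frg2 Pool.Agent.H3.Frg3 Pool.Agent.H3.Frg4

theorem ce_imp_left {V X : Type} {P : PA X} {F : V → X → Bool} {k : ℕ} {A B : Fm V}
    {p : X → Bool} (h : CE P F k (Fm.imp A B) p) : ∃ a, CE P F k A a := by
  obtain ⟨_, a, b, ha, _, _⟩ := h
  exact ⟨a, ha⟩

theorem ce_imp_right {V X : Type} {P : PA X} {F : V → X → Bool} {k : ℕ} {A B : Fm V}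
    {p : X → Bool} (h : CE P F k (Fm.imp A B) p) : ∃ b, CE P F k B b := by
  obtain ⟨_, a, b, _, hb, _⟩ := h
  exact ⟨b, hb⟩

theorem coreE {V : Type} (v0 : V) {Sch : Set (Fm ℕ)} {ℓ : ℕ} (hℓ : 1 ≤ ℓ)
    (hSch : ∀ ψ ∈ Sch, ψ.len ≤ ℓ ∧ ∀ x : ℕ → Bool, ψ.eval x = true)
    {d : ℕ} {C : ℕ → Fm V} (hCd : ∀ i, ∃ j, j < 2 ^ d ∧ C i = C j)
    {L K : ℕ} (pf : (Fin K → Bool) → Fin L → Fm V) (Dd : (Fin K → Bool) → Fin K → Fm V)
    (hD : ∀ a a' j, (∀ i < j, a i = a' i) → Dd a j = Dd a' j)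
    (hpf : ∀ i, (∀ a, ∃ m, pf a i = C m) ∨
      (∃ j, ∀ a, pf a i = Fm.imp (tb v0 (a j)) (Dd a j)) ∨
      (∃ j, ∀ a, pf a i = Fm.imp (Dd a j) (tb v0 (a j))) ∨
      (∀ a, ∃ ψ ∈ Sch, ∃ σ : ℕ → Fm V, pf a i = ψ.bind σ) ∨
      (∃ j k, j < i ∧ k < i ∧ ∀ a, pf a k = Fm.imp (pf a j) (pf a i)))
    (hfin : ∃ i, ∀ a, pf a i = Fm.neg (bigAnd d C))
    {s v S : ℕ} (hC : ∀ i, (C i).len ≤ s) (hs : s ≤ S)
    (G : (Fin K → Bool) → Finset (Fm V)) (g : ℕ) (hGc : ∀ a, (G a).card ≤ g)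
    (Q : (Fin K → Bool) → Fin L → Finset (Fm V)) (hv : ∀ a i, (Q a i).card ≤ v)
    (hS : ∀ a i, ∑ B ∈ Q a i, B.len ≤ S)
    (hBC : ∀ a i, BC {A | A ∈ G a ∨ A ∈ Q a i} (pf a i))
    (hG : ∀ a, ∀ A ∈ G a, ∀ B ∈ A.subs, B.len ≤ s ∨ B ∈ (Fm.neg (bigAnd d C)).subs ∨
      Op Sch (pf a) B)
    {M w k Kx h : ℕ} (hh : 1 ≤ h) (hk : 1 ≤ k) (hM : (K + 10 * (ℓ + 2)) * (k + Kx) ≤ M)
    (hsize : w * (h * (2 ^ (ℓ + 1) * (g + 1) * (v + 1)) +
      18 * (2 ^ (ℓ + 1) * (g + 1) * (2 * S))) ≤ h * k)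
    (hW : ∀ Bs : List (Fm V), (∀ B ∈ Bs, B.len ≤ S) →
      Bs.length ≤ 2 ^ K * ((L + 2 ^ (ℓ + 1) * (g + 1)) * (v + 1)) + 2 ^ d + 1 →
      Wld M w k Kx h Bs ((List.range (2 ^ d)).map C)) : False := by
  classical
  have hval1 : ∀ a : Fin K → Bool, ∃ Bs : List (Fm V), (∀ B ∈ Bs, B.len ≤ S) ∧
      Bs.length ≤ (L + 2 ^ (ℓ + 1) * (g + 1)) * (v + 1) ∧
      ∀ (X : Type) (P : PA X) (F : V → X → Bool),
        (∀ A ∈ Bs, ∃ (p : X → Bool) (m : ℕ), CE P F k A p ∧ P.Dg (rl p) (w * m) ∧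
          h * m ≤ h + 18 * A.len) →
        (∀ i < 2 ^ d, CE P F k (C i) (fun _ => true)) →
        ∀ i, ∃ p, CE P F k (pf a i) p := by
    intro a
    have hg1 : (G a).card + 1 ≤ g + 1 := Nat.add_le_add_right (hGc a) 1
    obtain ⟨Bs, h1, h2, h3⟩ := core_val hℓ (fun ψ hψ => (hSch ψ hψ).1) (d := d) (C := C)
      (pf := pf a) hC hs (G a) (Q a) (hv a) (hS a) (hBC a) (hG a) (w := w) (k := k) hh (by
        refine le_trans ?_ hsize
        refine Nat.mul_le_mul_left _ (Nat.add_le_add ?_ ?_)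
        · exact Nat.mul_le_mul_left _ (Nat.mul_le_mul_right _ (Nat.mul_le_mul_left _ hg1))
        · exact Nat.mul_le_mul_left _ (Nat.mul_le_mul_right _ (Nat.mul_le_mul_left _ hg1)))
    refine ⟨Bs, h1, h2.trans ?_, h3⟩
    exact Nat.mul_le_mul_right _ (Nat.add_le_add_left (Nat.mul_le_mul_left _ hg1) _)
  choose Bs hBs1 hBs2 hBs3 using hval1
  obtain ⟨N, hN⟩ : ∃ N, N = (L + 2 ^ (ℓ + 1) * (g + 1)) * (v + 1) := ⟨_, rfl⟩
  rw [← hN] at hW hBs2
  have hs1 : 1 ≤ s := (Fm_len_pos (C 0)).trans (hC 0)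
  obtain ⟨Ls, hLs⟩ : ∃ Ls : List (Fm V), Ls = (Finset.univ : Finset (Fin K → Bool)).toList.flatMap
    Bs ++ ((List.range (2 ^ d)).map C ++ [Fm.var v0]) := ⟨_, rfl⟩
  have hLB : ∀ a, ∀ B ∈ Bs a, B ∈ Ls := fun a B hB => by
    rw [hLs]
    exact List.mem_append_left _ (List.mem_flatMap.mpr
      ⟨a, Finset.mem_toList.mpr (Finset.mem_univ _), hB⟩)
  have hLC : ∀ i < 2 ^ d, C i ∈ Ls := fun i hi => by
    rw [hLs]
    exact List.mem_append_right _ (List.mem_append_left _ (List.mem_map.mpr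
      ⟨i, List.mem_range.mpr hi, rfl⟩))
  have hLv : Fm.var v0 ∈ Ls := by
    rw [hLs]
    exact List.mem_append_right _ (List.mem_append_right _ (List.mem_singleton.mpr rfl))
  have hLl : ∀ B ∈ Ls, B.len ≤ S := by
    intro B hB
    rw [hLs, List.mem_append, List.mem_append, List.mem_flatMap, List.mem_map,
      List.mem_singleton] at hB
    rcases hB with ⟨a, -, hB⟩ | ⟨i, -, rfl⟩ | rfl
    · exact hBs1 a B hB
    · exact (hC i).trans hs
    · show 1 ≤ S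
      omega
  have hlen : Ls.length ≤ 2 ^ K * N + 2 ^ d + 1 := by
    rw [hLs, List.length_append, List.length_append, List.length_map, List.length_range,
      List.length_singleton, List.length_flatMap]
    have h1 : ∀ x ∈ (Finset.univ : Finset (Fin K → Bool)).toList.map (fun a => (Bs a).length),
        x ≤ N := by
      intro x hx
      rw [List.mem_map] at hx
      obtain ⟨a, -, rfl⟩ := hx
      exact hBs2 a
    have h2 := List.sum_le_card_nsmul _ N h1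
    rw [List.length_map, Finset.length_toList, Finset.card_univ, smul_eq_mul] at h2
    have h3 : Fintype.card (Fin K → Bool) = 2 ^ K := by simp
    rw [h3] at h2
    omega
  obtain ⟨X, P, F, hPM, hval, hAx⟩ := hW Ls hLl hlen
  -- the clauses
  have hM0 : K * k + 2 * k ≤ P.M ∧ 2 * (k + Kx) ≤ P.M ∧ 10 * (ℓ + 2) * k ≤ P.M - K * k := by
    rw [hPM]
    have e1 : (K + 10 * (ℓ + 2)) * (k + Kx) = K * k + 10 * (ℓ + 2) * k + (K * Kx +
      10 * (ℓ + 2) * Kx) := by ring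
    have e2 : 2 * k ≤ 10 * (ℓ + 2) * k := Nat.mul_le_mul_right _ (by omega)
    have e3 : 2 * Kx ≤ 10 * (ℓ + 2) * Kx := Nat.mul_le_mul_right _ (by omega)
    refine ⟨by omega, by omega, by omega⟩
  obtain ⟨hM1, hM2, hM3⟩ := hM0
  have hC1 : ∀ i < 2 ^ d, CE P F k (C i) (fun _ => true) := by
    intro i hi
    obtain ⟨h1, h2⟩ := hAx (C i) (List.mem_map.mpr ⟨i, List.mem_range.mpr hi, rfl⟩)
    obtain ⟨r, m, hr, -, -⟩ := hval _ (hLC i hi)
    have h3 := ce_hv hM2 h1 hr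
    refine ce_congr hr (P.dg_congr (P.dg_const' 1 k) fun z => by simp [rl]) ?_
    refine P.peq_symm (P.peq_trans h3 ?_)
    exact P.z_congr h2 fun z => by simp [rl]
  have hC2 : ∀ i, CE P F k (C i) (fun _ => true) := by
    intro i
    obtain ⟨j, hj, h1⟩ := hCd i
    rw [h1]
    exact hC1 j hj
  have hτf : CE P F k (Fm.neg (bigAnd d C)) (fun _ => false) := by
    refine ce_neg_iff.2 ⟨P.dg_congr (P.dg_const' 0 k) fun z => by simp [rl], fun _ => true,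
      ce_bigAnd P F k d C hC1, P.peq_of_eq fun z => by simp [rl]⟩
  have hlines : ∀ a i, ∃ p, CE P F k (pf a i) p := fun a =>
    hBs3 a X P F (fun A hA => hval A (hLB a A hA)) hC1
  -- the values of the extension variables
  obtain ⟨J, hJ⟩ : ∃ J : Set (Fin K), J = {j | ∃ i, (∀ a, pf a i = Fm.imp (tb v0 (a j)) (Dd a j)) ∨
    (∀ a, pf a i = Fm.imp (Dd a j) (tb v0 (a j)))} := ⟨_, rfl⟩
  obtain ⟨a, I, hI, hZ, hvals⟩ := choose_vals P F k Dd J hD (by
    intro a j hj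
    rw [hJ] at hj
    obtain ⟨i, hi | hi⟩ := hj
    · obtain ⟨p, hp⟩ := hlines a i
      rw [hi a] at hp
      exact ce_imp_right hp
    · obtain ⟨p, hp⟩ := hlines a i
      rw [hi a] at hp
      exact ce_imp_left hp)
  have hm : K * k ≤ P.M := by omega
  have hcnd : ∀ A p, CE P F k A p → CE (cnd P I (K * k) hI hZ hm) (rxF P F k) k A p :=
    fun A p hp => ce_cnd hI hZ hm (by omega) A p hp
  obtain ⟨rv, mv, hrv, -, -⟩ := hval _ hLv
  have htb : ∀ b, CE (cnd P I (K * k) hI hZ hm) (rxF P F k) k (tb v0 b) (fun _ => b) := fun b =>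
    ce_tb (hcnd _ _ hrv) b
  have hdc : ∀ b : Bool, P.Dg (rl (fun _ : X => b)) k := fun b =>
    P.dg_congr (P.dg_const' (if b then 1 else 0) k) fun z => by simp [rl]
  have hDv : ∀ j ∈ J, CE (cnd P I (K * k) hI hZ hm) (rxF P F k) k (Dd a j) (fun _ => a j) := by
    intro j hj
    obtain ⟨p, hp, h1⟩ := hvals j hj
    refine ce_congr (hcnd _ _ hp) (hdc (a j)) ?_
    refine P.z_congr P.z_zero fun z => ?_
    have h2 := h1 z
    have h3 : rl (fun _ : X => a j) z = if a j then 1 else 0 := rfl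
    show 0 = I z * (rl (fun _ : X => a j) z - rl p z)
    rw [h3]
    linear_combination h2
  refine no_der (cnd P I (K * k) hI hZ hm) (rxF P F k) k ℓ hk hM3 Sch hSch
    (Γ := Set.range C ∪ {A | ∃ j ∈ J, A = Fm.imp (tb v0 (a j)) (Dd a j) ∨
      A = Fm.imp (Dd a j) (tb v0 (a j))}) (pf a) ?_ ?_ ?_ (hcnd _ _ hτf) ?_
  · intro i
    rcases hpf i with h1 | ⟨j, h1⟩ | ⟨j, h1⟩ | h1 | ⟨j, k', hj, hk', h1⟩
    · obtain ⟨m, hm'⟩ := h1 a
      exact Or.inl (Or.inl ⟨m, hm'.symm⟩)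
    · exact Or.inl (Or.inr ⟨j, by rw [hJ]; exact ⟨i, Or.inl h1⟩, Or.inl (h1 a)⟩)
    · exact Or.inl (Or.inr ⟨j, by rw [hJ]; exact ⟨i, Or.inr h1⟩, Or.inr (h1 a)⟩)
    · exact Or.inr (Or.inl (h1 a))
    · exact Or.inr (Or.inr ⟨j, k', hj, hk', h1 a⟩)
  · intro i
    obtain ⟨p, hp⟩ := hlines a i
    exact ⟨p, hcnd _ _ hp⟩
  · rintro A (⟨m, rfl⟩ | ⟨j, hj, rfl | rfl⟩)
    · exact hcnd _ _ (hC2 m)
    · refine ⟨hdc true, fun _ => a j, fun _ => a j, htb _, hDv j hj, ?_⟩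
      refine P.z_congr P.z_zero fun z => ?_
      cases a j <;> simp [rl]
    · refine ⟨hdc true, fun _ => a j, fun _ => a j, hDv j hj, htb _, ?_⟩
      refine P.z_congr P.z_zero fun z => ?_
      cases a j <;> simp [rl]
  · obtain ⟨i, hi⟩ := hfin
    exact ⟨i, hi a⟩

end Pool.Agent.H90.PC
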