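import Mathlib
import Pool.Agent.H90.PC.Tr
import Pool.Agent.H90.PE.Cnd

set_option autoImplicit false
set_option linter.unusedSectionVars false

/-!
# Module SUB: the family of the derivations obtained by substituting truth values for the
extension variables
-/

namespace Pool.Agent.H90.PC

open Finset Pool.Agent.H3.Frg Pool.Agent.H3.Frg2 Pool.Agent.H3.Frg3 Pool.Agent.H3.Frg4

theorem eb_bind {V : Type} (σ : ℕ → Fm ℕ) (σ' : ℕ → Fm V) (A : Fm ℕ) :
    (A.bind σ).bind σ' = A.bind (fun i => (σ i).bind σ') := by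
  induction A with
  | var i => rfl
  | neg A ih => simp only [Fm.bind, ih]
  | imp A B ihA ihB => simp only [Fm.bind, ihA, ihB]

theorem eb_congr {V : Type} (σ σ' : ℕ → Fm V) (A : Fm ℕ)
    (h : ∀ i, Fm.var i ∈ A.subs → σ i = σ' i) : A.bind σ = A.bind σ' := by
  induction A with
  | var i => exact h i (by simp [Fm.subs])
  | neg A ih =>
    simp only [Fm.bind]
    rw [ih fun i hi => h i (by rw [Fm.subs]; exact List.mem_cons_of_mem _ hi)]
  | imp A B ihA ihB =>
    simp only [Fm.bind]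
    rw [ihA fun i hi => h i (by
        rw [Fm.subs]; exact List.mem_cons_of_mem _ (List.mem_append_left _ hi)),
      ihB fun i hi => h i (by
        rw [Fm.subs]; exact List.mem_cons_of_mem _ (List.mem_append_right _ hi))]

theorem eb_ren {V : Type} (g : ℕ → V) (A : Fm ℕ) : A.bind (fun i => Fm.var (g i)) = A.ren g := by
  induction A with
  | var i => rfl
  | neg A ih => simp only [Fm.bind, Fm.ren, ih]
  | imp A B ihA ihB => simp only [Fm.bind, Fm.ren, ihA, ihB]

theorem eb_len {V : Type} (σ : ℕ → Fm V) (hσ : ∀ i, (σ i).len ≤ 4) (A : Fm ℕ) :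
    (A.bind σ).len ≤ 4 * A.len := by
  induction A with
  | var i => exact hσ i
  | neg A ih => simp only [Fm.bind, Fm.len]; omega
  | imp A B ihA ihB => simp only [Fm.bind, Fm.len]; omega

theorem eb_subs {V : Type} (σ : ℕ → Fm V) (A : Fm ℕ) : ∀ B ∈ (A.bind σ).subs,
    (∃ B' ∈ A.subs, B = B'.bind σ) ∨ ∃ i, Fm.var i ∈ A.subs ∧ B ∈ (σ i).subs := by
  induction A with
  | var i =>
    intro B hB
    exact Or.inr ⟨i, by simp [Fm.subs], hB⟩
  | neg A ih =>
    intro B hB
    simp only [Fm.bind, Fm.subs, List.mem_cons] at hB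
    rcases hB with rfl | hB
    · exact Or.inl ⟨Fm.neg A, mem_subs_refl _, rfl⟩
    · rcases ih B hB with ⟨B', h1, h2⟩ | ⟨i, h1, h2⟩
      · exact Or.inl ⟨B', by rw [Fm.subs]; exact List.mem_cons_of_mem _ h1, h2⟩
      · exact Or.inr ⟨i, by rw [Fm.subs]; exact List.mem_cons_of_mem _ h1, h2⟩
  | imp A A' ih ih' =>
    intro B hB
    simp only [Fm.bind, Fm.subs, List.mem_cons, List.mem_append] at hB
    rcases hB with rfl | hB | hB
    · exact Or.inl ⟨Fm.imp A A', mem_subs_refl _, rfl⟩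
    · rcases ih B hB with ⟨B', h1, h2⟩ | ⟨i, h1, h2⟩
      · exact Or.inl ⟨B', by
          rw [Fm.subs]; exact List.mem_cons_of_mem _ (List.mem_append_left _ h1), h2⟩
      · exact Or.inr ⟨i, by
          rw [Fm.subs]; exact List.mem_cons_of_mem _ (List.mem_append_left _ h1), h2⟩
    · rcases ih' B hB with ⟨B', h1, h2⟩ | ⟨i, h1, h2⟩
      · exact Or.inl ⟨B', by
          rw [Fm.subs]; exact List.mem_cons_of_mem _ (List.mem_append_right _ h1), h2⟩
      · exact Or.inr ⟨i, by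
          rw [Fm.subs]; exact List.mem_cons_of_mem _ (List.mem_append_right _ h1), h2⟩

theorem eb_bc {V : Type} (σ : ℕ → Fm V) {P : Set (Fm ℕ)} {Q : Set (Fm V)}
    (hPQ : ∀ A ∈ P, A.bind σ ∈ Q) {A : Fm ℕ} (hA : BC P A) : BC Q (A.bind σ) := by
  induction hA with
  | base A hA => exact BC.base _ (hPQ A hA)
  | neg A hA ih => exact BC.neg _ ih
  | imp A B hA hB ihA ihB => exact BC.imp _ _ ihA ihB

theorem eb_op {V : Type} (σ : ℕ → Fm V) {Sch : Set (Fm ℕ)} {L : ℕ} {pf : Fin L → Fm ℕ}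
    {A : Fm ℕ} (h : Op Sch pf A) : Op Sch (fun i => (pf i).bind σ) (A.bind σ) := by
  obtain ⟨i, h | ⟨ψ, hψ, σ', h1, X, hX, h2⟩⟩ := h
  · exact ⟨i, Or.inl (by rw [h])⟩
  · refine ⟨i, Or.inr ⟨ψ, hψ, fun m => (σ' m).bind σ, ?_, X, hX, ?_⟩⟩
    · show (pf i).bind σ = _
      rw [h1, eb_bind]
    · rw [h2, eb_bind]

theorem eb_sum {V : Type} [DecidableEq (Fm V)] (σ : ℕ → Fm V) (hσ : ∀ i, (σ i).len ≤ 4)
    (f : Fm ℕ → Fm ℕ) (hf : ∀ A, (f A).len ≤ A.len) (Q : Finset (Fm ℕ)) :
    ∑ B ∈ Q.image (fun A => (f A).bind σ), B.len ≤ 4 * ∑ B ∈ Q, B.len := by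
  classical
  induction Q using Finset.induction_on with
  | empty => simp
  | insert a Q ha ih =>
    rw [Finset.image_insert, Finset.sum_insert ha]
    by_cases h : (f a).bind σ ∈ Q.image (fun A => (f A).bind σ)
    · rw [Finset.insert_eq_of_mem h]
      omega
    · rw [Finset.sum_insert h]
      have h1 := hf a
      have h2 := eb_len σ hσ (f a)
      omega

theorem tb_len {V : Type} (v0 : V) (b : Bool) : (tb v0 b).len ≤ 4 := by
  cases b
  · show (bot v0).len ≤ 4
    simp [bot, Fm.len]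
  · show (top v0).len ≤ 4
    simp [top, Fm.len]

open Classical in
/-- truth values for the extension variables, other variables are renamed by `g` -/
noncomputable def sgE {V : Type} {K : ℕ} (v0 : V) (g : ℕ → V) (q : Fin K → ℕ) (a : Fin K → Bool)
    (m : ℕ) : Fm V :=
  if h : ∃ j, q j = m then tb v0 (a h.choose) else Fm.var (g m)

theorem sgE_q {V : Type} {K : ℕ} (v0 : V) (g : ℕ → V) {q : Fin K → ℕ} (hq : Function.Injective q)
    (a : Fin K → Bool) (j : Fin K) : sgE v0 g q a (q j) = tb v0 (a j) := by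
  have h : ∃ j', q j' = q j := ⟨j, rfl⟩
  unfold sgE
  rw [dif_pos h, hq h.choose_spec]

theorem sgE_n {V : Type} {K : ℕ} (v0 : V) (g : ℕ → V) {q : Fin K → ℕ}
    (a : Fin K → Bool) {m : ℕ} (h : ∀ j, q j ≠ m) : sgE v0 g q a m = Fm.var (g m) := by
  unfold sgE
  rw [dif_neg]
  rintro ⟨j, hj⟩
  exact h j hj

theorem sgE_len {V : Type} {K : ℕ} (v0 : V) (g : ℕ → V) (q : Fin K → ℕ) (a : Fin K → Bool)
    (m : ℕ) : (sgE v0 g q a m).len ≤ 4 := by
  unfold sgE
  split_ifs
  · exact tb_len _ _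
  · simp [Fm.len]

end Pool.Agent.H90.PC
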