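import Mathlib
import Pool.Agent.H90.PC.Tr
import Pool.Agent.H90.PE.StmtE

set_option autoImplicit false
set_option linter.unusedSectionVars false

/-!
# Module TRE: formulas that are never opened are replaced by a variable, for derivations from
arbitrary axioms (as in `PC/Tr.lean`)
-/

namespace Pool.Agent.H90.PC

open Finset Pool.Agent.H3.Frg Pool.Agent.H3.Frg2 Pool.Agent.H3.Frg3 Pool.Agent.H3.Frg4

theorem translateE (v0 : ℕ) {Sch : Set (Fm ℕ)} {Γ T : Set (Fm ℕ)}
    (hT : ∀ A ∈ T, ∀ B ∈ A.subs, B ∈ T)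
    {L : ℕ} {pf : Fin L → Fm ℕ} (hpf : IsDer Sch Γ pf) :
    ∃ f : Fm ℕ → Fm ℕ,
      (∀ i, pf i ∈ Γ ∨ (∃ ψ ∈ Sch, ∃ σ : ℕ → Fm ℕ, f (pf i) = ψ.bind σ) ∨
        (∃ j k, j < i ∧ k < i ∧ f (pf k) = Fm.imp (f (pf j)) (f (pf i)))) ∧
      (∀ A ∈ T, f A = A) ∧
      (∀ A, (f A).len ≤ A.len) ∧
      (∀ (P : Set (Fm ℕ)) (A : Fm ℕ), BC P A → BC {B | B = Fm.var v0 ∨ ∃ D ∈ P, B = f D} (f A)) ∧
      (∀ A, ∀ g ∈ (f A).subs, (∃ v, g = Fm.var v) ∨ g ∈ T ∨ Op Sch (fun i => f (pf i)) g) ∧
      (∀ i A B, pf i = Fm.imp A B → f (Fm.imp A B) = Fm.imp (f A) (f B)) ∧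
      ∀ A x, Fm.var x ∈ (f A).subs → x = v0 ∨ Fm.var x ∈ A.subs := by
  classical
  set Ac : Fm ℕ → Prop := TrAct Sch Set.univ T pf with hAcd
  have hAcT : ∀ A ∈ T, Ac A := fun A hA => Or.inl hA
  have hline : ∀ i, Ac (pf i) := fun i => Or.inr (Or.inl ⟨Set.mem_univ _, i, rfl⟩)
  have hb : ∀ i, ∀ ψ ∈ Sch, ∀ σ : ℕ → Fm ℕ, pf i = ψ.bind σ → ∀ X ∈ ψ.subs,
      trF v0 T Ac (X.bind σ) = X.bind fun m => trF v0 T Ac (σ m) := by
    intro i ψ hψ σ h1 X hX
    refine trF_bind v0 T Ac σ X fun Z hZ hZ' => ?_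
    exact Or.inr (Or.inr ⟨i, ψ, hψ, σ, h1, fun _ _ _ => Set.mem_univ _, Z, subs_trans hZ hX, hZ',
      rfl⟩)
  refine ⟨trF v0 T Ac, ?_, ?_, ?_, ?_, ?_, ?_, ?_⟩
  · intro i
    rcases hpf i with h1 | ⟨ψ, hψ, σ, h1⟩ | ⟨j, k, hj, hk, h1⟩
    · exact Or.inl h1
    · right; left
      refine ⟨ψ, hψ, fun m => trF v0 T Ac (σ m), ?_⟩
      rw [h1]
      exact hb i ψ hψ σ h1 ψ (mem_subs_refl ψ)
    · right; right
      refine ⟨j, k, hj, hk, ?_⟩
      have h3 : Ac (pf k) := hline k
      rw [h1] at h3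
      rw [h1, trF_imp v0 T Ac h3]
  · exact fun A hA => trF_T v0 hT hAcT A hA
  · exact fun A => trF_len v0 T Ac A
  · intro P A hA
    induction hA with
    | base A hA => exact BC.base _ (Or.inr ⟨A, hA, rfl⟩)
    | neg A hA ih =>
      by_cases h : Ac (Fm.neg A)
      · rw [trF_neg v0 T Ac h]; exact BC.neg _ ih
      · rw [trF_neg' v0 T Ac h]; exact BC.base _ (Or.inl rfl)
    | imp A B hA hB ihA ihB =>
      by_cases h : Ac (Fm.imp A B)
      · rw [trF_imp v0 T Ac h]; exact BC.imp _ _ ihA ihB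
      · rw [trF_imp' v0 T Ac h]; exact BC.base _ (Or.inl rfl)
  · have hact : ∀ A, Ac A → trF v0 T Ac A ∈ T ∨
        Op Sch (fun i => trF v0 T Ac (pf i)) (trF v0 T Ac A) := by
      intro A hA
      rcases hA with hA | ⟨hA, k, hk⟩ | ⟨i, ψ, hψ, σ, h1, h2, X, hX, hX', h3⟩
      · left; rw [trF_T v0 hT hAcT A hA]; exact hA
      · right
        refine ⟨k, Or.inl ?_⟩
        rw [hk]
      · right
        refine ⟨i, Or.inr ⟨ψ, hψ, fun m => trF v0 T Ac (σ m), ?_, X, hX, ?_⟩⟩
        · show trF v0 T Ac (pf i) = _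
          rw [h1]
          exact hb i ψ hψ σ h1 ψ (mem_subs_refl ψ)
        · rw [h3]
          exact hb i ψ hψ σ h1 X hX
    intro A
    induction A with
    | var i =>
      intro g hg
      left
      rw [trF] at hg
      split_ifs at hg
      · rw [Fm.subs, List.mem_singleton] at hg; exact ⟨i, hg⟩
      · rw [Fm.subs, List.mem_singleton] at hg; exact ⟨v0, hg⟩
    | neg A ih =>
      intro g hg
      by_cases h : Ac (Fm.neg A)
      · have h4 := hact _ h
        rw [trF_neg v0 T Ac h] at hg h4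
        rw [Fm.subs, List.mem_cons] at hg
        rcases hg with hg | hg
        · rw [hg]; exact Or.inr h4
        · exact ih g hg
      · rw [trF_neg' v0 T Ac h, Fm.subs, List.mem_singleton] at hg
        exact Or.inl ⟨v0, hg⟩
    | imp A B ihA ihB =>
      intro g hg
      by_cases h : Ac (Fm.imp A B)
      · have h4 := hact _ h
        rw [trF_imp v0 T Ac h] at hg h4
        rw [Fm.subs, List.mem_cons, List.mem_append] at hg
        rcases hg with hg | hg | hg
        · rw [hg]; exact Or.inr h4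
        · exact ihA g hg
        · exact ihB g hg
      · rw [trF_imp' v0 T Ac h, Fm.subs, List.mem_singleton] at hg
        exact Or.inl ⟨v0, hg⟩
  · intro i A B h1
    have h3 : Ac (pf i) := hline i
    rw [h1] at h3
    exact trF_imp v0 T Ac h3
  · intro A
    induction A with
    | var i =>
      intro x hx
      rw [trF] at hx
      split_ifs at hx
      · exact Or.inr hx
      · rw [Fm.subs, List.mem_singleton] at hx
        left
        cases hx
        rfl
    | neg A ih =>
      intro x hx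
      by_cases h : Ac (Fm.neg A)
      · rw [trF_neg v0 T Ac h, Fm.subs, List.mem_cons] at hx
        rcases hx with hx | hx
        · cases hx
        · rcases ih x hx with h5 | h5
          · exact Or.inl h5
          · right; rw [Fm.subs]; exact List.mem_cons_of_mem _ h5
      · rw [trF_neg' v0 T Ac h, Fm.subs, List.mem_singleton] at hx
        left
        cases hx
        rfl
    | imp A B ihA ihB =>
      intro x hx
      by_cases h : Ac (Fm.imp A B)
      · rw [trF_imp v0 T Ac h, Fm.subs, List.mem_cons, List.mem_append] at hx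
        rcases hx with hx | hx | hx
        · cases hx
        · rcases ihA x hx with h5 | h5
          · exact Or.inl h5
          · right; rw [Fm.subs]; exact List.mem_cons_of_mem _ (List.mem_append_left _ h5)
        · rcases ihB x hx with h5 | h5
          · exact Or.inl h5
          · right; rw [Fm.subs]; exact List.mem_cons_of_mem _ (List.mem_append_right _ h5)
      · rw [trF_imp' v0 T Ac h, Fm.subs, List.mem_singleton] at hx
        left
        cases hx
        rfl

end Pool.Agent.H90.PC
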