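import Mathlib
import Pool.Agent.H90.PC.Num

set_option autoImplicit false
set_option linter.unusedSectionVars false

/-!
# Module NUME: all numerical conditions can be satisfied (as `PC/Num.lean`, with `b` instead of the
constant `ℓ`, and one more power of `b`)
-/

namespace Pool.Agent.H90.PC

open Finset Filter Topology Pool.Agent.H3.Frg Pool.Agent.H3.Frg2 Pool.Agent.H3.Frg3
  Pool.Agent.H3.Frg4 Pool.Agent.H3.Ex

theorem nzE_exists (J Dm y m A : ℕ) (hDm : 80 ≤ Dm) (hm : 4 * y + 30 ≤ m) :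
    ∀ᶠ b : ℕ in atTop, ∀ k n : ℕ, 2 ^ k = b ^ (y + (2 * Dm + 14)) → b ^ m ≤ n →
      n * ((k + 1) * 2 ^ k) ^ J ≤ b ^ A →
    ∃ (kt K Mt lam κ : ℕ) (u1 η : ℝ),
      Nz J n k b (b ^ 12) (b ^ (2 * y)) Dm kt (Dm + 1) Mt K
        (b ^ (2 * y * J + (m - 15))) b (2 ^ b) lam κ b (b : ℝ) u1 η ∧
      b ^ 12 * (4 * (b ^ (2 * y)) ^ J * b ^ (m - 15) + 18 * b ^ (2 * y * J + (m - 15))) ≤
        4 * (b ^ (2 * y)) ^ J * (kt * Dm ^ J) := by
  obtain ⟨U, hU⟩ : ∃ U, U = 16 * Kh Dm 1000 ^ (1 + Dm) := ⟨_, rfl⟩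
  have hKh : 1 ≤ Kh Dm 1000 := by
    unfold Kh
    exact Nat.mul_pos (by norm_num) (by positivity)
  have hU2 : 2 ≤ U := by
    rw [hU]
    have := Nat.one_le_pow (1 + Dm) _ hKh
    omega
  obtain ⟨lam, hlam⟩ : ∃ lam, lam = U ^ (2 * (A + 1)) := ⟨_, rfl⟩
  obtain ⟨C0, hC0⟩ : ∃ C0, C0 = Dm * 3 ^ (4 * (18 + 16 * Dm * 1000) * lam) := ⟨_, rfl⟩
  obtain ⟨Cd, hCd⟩ : ∃ Cd, Cd = 6001 * Dm ^ J := ⟨_, rfl⟩
  have pCl : PB (fun b => 20 * (b + 2)) 1 := (PB.id.add (PB.const 2)).cmul 20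
  -- polynomial bounds
  have pH : PB (fun b => b ^ 12 * (1 + 72 * b ^ (2 * y))) (12 + 2 * y) :=
    (PB.pow' 12).mul ((PB.const 1).add ((PB.pow' (2 * y)).cmul 72))
  have pd : PB (fun b => Dm * (b ^ 12 * (1 + 72 * b ^ (2 * y)))) (12 + 2 * y) := pH.cmul Dm
  have pK : PB (fun b => 1000 * (2 * (Dm * (b ^ 12 * (1 + 72 * b ^ (2 * y)))))) (12 + 2 * y) :=
    (pd.cmul 2).cmul 1000
  have pn3 : PB (fun b => 3 * (1000 * (2 * (Dm * (b ^ 12 * (1 + 72 * b ^ (2 * y)))))))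
      (12 + 2 * y) := pK.cmul 3
  have pn4 : PB (fun b => Cd * (Dm * (1000 * (2 * (Dm * (b ^ 12 * (1 + 72 * b ^ (2 * y))))))))
      (12 + 2 * y) := (pK.cmul Dm).cmul Cd
  have pk1 : PB (fun b => Cd * (20 * (b + 2) * (b ^ 12 * (1 + 72 * b ^ (2 * y)))))
      (1 + (12 + 2 * y)) := (pCl.mul pH).cmul Cd
  have pk3 : PB (fun b => Cd * (20 * (b + 2) * (Dm + 1))) (1 + 0) :=
    (pCl.mul (PB.const (Dm + 1))).cmul Cd
  have pmm : PB (fun b => Cd * (4 * (Dm * (b ^ 12 * (1 + 72 * b ^ (2 * y)))))) (12 + 2 * y) :=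
    (pd.cmul 4).cmul Cd
  have ps1 : PB (fun b => Cd * (20 * (b + 2) * (6 * b ^ (m - 3)))) (1 + (m - 3)) :=
    (pCl.mul ((PB.pow' (m - 3)).cmul 6)).cmul Cd
  have pg1 : PB (fun b => 1 + 1000 * Dm + 2 * 1000 * (Dm * (b ^ 12 * (1 + 72 * b ^ (2 * y)))
      + Dm) * (Dm * (b ^ 12 * (1 + 72 * b ^ (2 * y))))) ((12 + 2 * y) + (12 + 2 * y)) :=
    (PB.const (1 + 1000 * Dm)).add (((pd.add (PB.const Dm)).cmul (2 * 1000)).mul pd)
  have pbu : PB (fun b => bud b Dm 1000 b (Dm * (b ^ 12 * (1 + 72 * b ^ (2 * y)))))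
      (12 + 2 * y + 2) := pb_bud Dm pd (by omega)
  have pqq : PB (fun b => 4 * (1 + 4 * 1000 * Dm) * (2 * (Dm * (b ^ 12 *
      (1 + 72 * b ^ (2 * y)))))) (12 + 2 * y) := (pd.cmul 2).cmul (4 * (1 + 4 * 1000 * Dm))
  have pc : PB (fun b => (3 * (b ^ (2 * y * J + (m - 15)) + 3 * J) ^ 2) ^ J)
      (((2 * y * J + (m - 15)) * 2) * J) :=
    ((((PB.pow' (2 * y * J + (m - 15))).add (PB.const (3 * J))).pow 2).cmul 3).pow J
  filter_upwards [pn3.lt (show 12 + 2 * y < m by omega), pn4.lt (show 12 + 2 * y < m by omega),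
    pk1.lt (show 1 + (12 + 2 * y) < m by omega), pk3.lt (show 1 + 0 < m by omega),
    pmm.lt (show 12 + 2 * y < m by omega), ps1.lt (show 1 + (m - 3) < m by omega),
    pg1.lt (show (12 + 2 * y) + (12 + 2 * y) < m by omega),
    pbu.lt (show 12 + 2 * y + 2 < m by omega), (pb_dpt Dm).lt (show 11 < 12 by norm_num),
    pqq.lt (show 12 + 2 * y < m by omega),
    pc.lt (Nat.lt_succ_self (((2 * y * J + (m - 15)) * 2) * J)),
    num_two 1 (((2 * y * J + (m - 15)) * 2) * J + 1 + A), num_l (4 * 1000 * Dm) A (by omega),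
    num_ka U A C0 hU2, num_e Dm y,
    eventually_ge_atTop (1000 + 2 * Dm ^ 2 * 1000 + 1)]
    with b h3 h4 hk1 hk3 hmm hs1 hg1 hbu hdp hqq hc hc2 hl hka he hb0
  intro k n hk hn hnA
  obtain ⟨he2, he3⟩ := he k hk
  have hb1 : 1 ≤ b := by omega
  have hbq : ∀ i : ℕ, 1 ≤ i → b ≤ b ^ i := fun i hi => Nat.le_self_pow (by omega) _
  have hb12 := hbq 12 (by norm_num)
  have hbm := hbq m (by omega)
  have hDJ : 1 ≤ Dm ^ J := Nat.one_le_pow _ _ (by omega)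
  have hCd0 : 0 < Cd := by rw [hCd]; omega
  obtain ⟨Cl, hCl⟩ : ∃ Cl, Cl = 20 * (b + 2) := ⟨_, rfl⟩
  rw [← hCl] at hk1 hk3 hs1
  have hCl0 : 0 < Cl := by rw [hCl]; omega
  obtain ⟨H, hH⟩ : ∃ H, H = b ^ 12 * (1 + 72 * b ^ (2 * y)) := ⟨_, rfl⟩
  obtain ⟨K, hK⟩ : ∃ K, K = 1000 * (2 * (Dm * H)) := ⟨_, rfl⟩
  obtain ⟨Mt, hMt⟩ : ∃ Mt, Mt = n / Cd := ⟨_, rfl⟩
  obtain ⟨kt, hkt⟩ : ∃ kt, kt = Mt / Cl := ⟨_, rfl⟩
  rw [← hH] at h3 h4 hk1 hmm hg1 hbu hqq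
  rw [← hK] at h3 h4
  have hMle : Cd * Mt ≤ n := by rw [hMt]; exact Nat.mul_div_le n Cd
  have hkle : Cl * kt ≤ Mt := by rw [hkt]; exact Nat.mul_div_le Mt Cl
  have hMge : ∀ a, Cd * a < b ^ m → a ≤ Mt := by
    intro a ha
    rw [hMt, Nat.le_div_iff_mul_le hCd0, mul_comm]
    omega
  have hkge : ∀ a, Cd * (Cl * a) < b ^ m → a ≤ kt := by
    intro a ha
    have h1 := hMge _ ha
    rw [hkt, Nat.le_div_iff_mul_le hCl0, mul_comm]
    exact h1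
  have hMJ : Mt ≤ Mt * Dm ^ J := Nat.le_mul_of_pos_right _ hDJ
  have hKR : ((Kh Dm 1000 : ℕ) : ℝ) ^ (1 + Dm) * 16 = (U : ℝ) := by rw [hU]; push_cast; ring
  have hX : (b ^ (2 * y)) ^ J = b ^ (2 * y * J) := by rw [← pow_mul]
  have hsp : b ^ (2 * y * J + (m - 15)) = b ^ (2 * y * J) * b ^ (m - 15) := pow_add _ _ _
  have hm2 : b ^ 12 * b ^ (m - 15) = b ^ (m - 3) := by
    rw [← pow_add]; congr 1; omega
  have hktb : 6 * b ^ (m - 3) ≤ kt := hkge _ hs1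
  have hlast : b ^ 12 * (4 * (b ^ (2 * y)) ^ J * b ^ (m - 15) + 18 * b ^ (2 * y * J + (m - 15))) ≤
        4 * (b ^ (2 * y)) ^ J * (kt * Dm ^ J) := by
    rw [hX, hsp]
    calc b ^ 12 * (4 * b ^ (2 * y * J) * b ^ (m - 15) + 18 * (b ^ (2 * y * J) * b ^ (m - 15)))
        = b ^ (2 * y * J) * (22 * (b ^ 12 * b ^ (m - 15))) := by ring
      _ = b ^ (2 * y * J) * (22 * b ^ (m - 3)) := by rw [hm2]
      _ ≤ b ^ (2 * y * J) * (4 * (kt * Dm ^ J)) := by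
          refine Nat.mul_le_mul_left _ ?_
          have h1 : kt ≤ kt * Dm ^ J := Nat.le_mul_of_pos_right _ hDJ
          omega
      _ = 4 * b ^ (2 * y * J) * (kt * Dm ^ J) := by ring
  refine ⟨kt, K, Mt, lam, Nat.log U b, (U : ℝ), (Dm : ℝ) * (b : ℝ) ^ (2 * Dm) / 2 ^ k, ?_, hlast⟩
  constructor
  case n1 => omega
  case x1 => exact Nat.one_le_pow _ _ hb1
  case w1 => omega
  case t1 => omega
  case n2 =>
    have h1 : 6001 * (Mt * Dm ^ J) ≤ n := by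
      refine le_trans (le_of_eq ?_) hMle
      rw [hCd]; ring
    omega
  case n3 => omega
  case n4 => exact (hMge _ h4).trans hMJ
  case k1 => rw [← hH]; exact hkge _ hk1
  case k2 =>
    refine le_trans ?_ hkle
    rw [hCl]
    exact Nat.mul_le_mul_right _ (by omega)
  case k3 =>
    have h1 : Cl * (Dm + 1) ≤ Mt := hMge _ hk3
    have h2 : 2 * (10 * (b + 2) * (kt + (Dm + 1))) = Cl * kt + Cl * (Dm + 1) := by
      rw [hCl]; ring
    omega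
  case s1 =>
    refine le_trans ?_ hlast
    refine Nat.mul_le_mul_left _ (Nat.add_le_add_right ?_ _)
    exact Nat.le_mul_of_pos_right _ (Nat.pow_pos hb1)
  case g1 => rw [← hH]; omega
  case la =>
    rw [hlam]
    exact hU2.trans (Nat.le_self_pow (by omega) _)
  case ka =>
    refine lt_of_le_of_lt ?_ (show C0 * b ^ A < lam ^ Nat.log U b by rw [hlam]; exact hka)
    calc Dm * (n * ((k + 1) * 2 ^ k) ^ J) * 3 ^ (4 * (18 + 16 * Dm * 1000) * lam)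
        = C0 * (n * ((k + 1) * 2 ^ k) ^ J) := by rw [hC0]; ring
      _ ≤ C0 * b ^ A := Nat.mul_le_mul_left _ hnA
  case a1 => rw [← hKR]; exact le_of_eq (by ring)
  case a0 =>
    have := Nat.pow_log_le_self U (x := b) (by omega)
    exact_mod_cast this
  case l1 => exact lt_of_le_of_lt (Nat.mul_le_mul_right _ hnA) hl
  case bu => rw [← hH]; omega
  case dp => exact hdp.le
  case kk => rw [← hH, ← hK]
  case mm => rw [← hH]; exact hMge _ hmm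
  case qq => rw [← hH]; omega
  case e1 => exact le_rfl
  case e2 => exact he2
  case e3 => exact he3
  case c1 =>
    have h23 : 2 ^ b * (3 * (b ^ (2 * y * J + (m - 15)) + 3 * J) ^ 2) ^ J *
        (n * ((k + 1) * 2 ^ k) ^ J) * 2 < 4 ^ (b + 1) := by
      calc 2 ^ b * (3 * (b ^ (2 * y * J + (m - 15)) + 3 * J) ^ 2) ^ J *
          (n * ((k + 1) * 2 ^ k) ^ J) * 2
          ≤ 2 ^ b * b ^ (((2 * y * J + (m - 15)) * 2) * J + 1) * b ^ A * 2 :=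
            Nat.mul_le_mul_right _ (Nat.mul_le_mul (Nat.mul_le_mul_left _ hc.le) hnA)
        _ = 2 ^ b * (1 * b ^ (((2 * y * J + (m - 15)) * 2) * J + 1 + A)) * 2 := by
            rw [pow_add b (((2 * y * J + (m - 15)) * 2) * J + 1) A]; ring
        _ ≤ 2 ^ b * 2 ^ b * 2 := Nat.mul_le_mul_right _ (Nat.mul_le_mul_left _ hc2.le)
        _ = 4 ^ b * 2 := by rw [← mul_pow]; norm_num
        _ < 4 ^ b * 4 := Nat.mul_lt_mul_of_pos_left (by norm_num) (by positivity)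
        _ = 4 ^ (b + 1) := (pow_succ 4 b).symm
    exact_mod_cast h23

end Pool.Agent.H90.PC
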