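import Mathlib
import Pool.Agent.H90.PE.Fin0E
import Pool.Agent.H90.PE.ParE
import Pool.Agent.H90.UB.Fin

set_option autoImplicit false
set_option linter.unusedSectionVars false

/-!
# Module FIN1E: the general bound, real exponents, extended Frege form (as `PC/Fin1.lean`)
-/

namespace Pool.Agent.H90.PC

open Finset Filter Topology Pool.Agent.H3.Frg Pool.Agent.H3.Frg2 Pool.Agent.H3.Frg3
  Pool.Agent.H3.Frg4 Pool.Agent.H3.Ex

theorem final1E (e : ℝ) (he : 0 < e) :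
    ∃ (k : ℕ) (ε : ℝ), 0 < ε ∧ ∃ (d : ℕ → ℕ) (C : ℕ → ℕ → Fm ℕ) (τ : ℕ → Fm ℕ),
      (∀ n, τ n = Fm.neg (bigAnd (d n) (C n))) ∧
      (∀ n i, IsClause k (C n i)) ∧
      (∀ n x, (τ n).eval x = true) ∧
      (∀ n i, ∃ j, j < 2 ^ d n ∧ C n i = C n j) ∧
      Tendsto (fun n => (τ n).enc.length) atTop atTop ∧
      (∀ δ : ℝ, 0 < δ → ∀ F : Set (Fm ℕ), Pool.Agent.H90.UB.Compl F → ∀ᶠ n in atTop,
        ∀ N : ℕ, 1 ≤ N → (N : ℝ) ≤ ((τ n).enc.length : ℝ) →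
          ∃ (L : ℕ) (pf : Fin L → Fm ℕ), IsDer F (Set.range (C n)) pf ∧ (∃ i, pf i = τ n) ∧
          L ≤ (τ n).enc.length ^ 4 ∧ (∀ i, (pf i).enc.length ≤ (τ n).enc.length ^ 5) ∧
          (({A | (∃ i, A = pf i) ∧ ((τ n).enc.length : ℝ) ^ (2 + δ) / (N : ℝ) ^ 2 <
            (A.enc.length : ℝ)}.ncard : ℕ) : ℝ) ≤ ((N : ℝ) - 1) * ((τ n).enc.length : ℝ) ^ δ) ∧
      ∀ ℓ : ℕ, ∀ᶠ n in atTop,
        ∀ Sch : Set (Fm ℕ), (∀ ψ ∈ Sch, ψ.len ≤ ℓ ∧ ∀ x : ℕ → Bool, ψ.eval x = true) →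
          ∀ (Ke : ℕ) (q : Fin Ke → ℕ) (D : Fin Ke → Fm ℕ),
            (Ke : ℝ) ≤ ((τ n).enc.length : ℝ) ^ ε → ExtOK (τ n) q D →
          ∀ (L : ℕ) (pf : Fin L → Fm ℕ), IsDer Sch (Set.range (C n) ∪ ExtAx q D) pf →
            (∃ i, pf i = τ n) →
          ∀ (G : Finset (Fm ℕ)) (Q : Fin L → Finset (Fm ℕ)) (w : ℕ) (S : ℝ),
            ((G.card : ℝ) + 1) * (w + 1) ≤ ((τ n).enc.length : ℝ) ^ (1 - e) →
            ((G.card : ℝ) + 1) ^ 2 * (w + 1) * S ≤ ((τ n).enc.length : ℝ) ^ (2 - e) →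
            (∀ i, (Q i).card ≤ w ∧ ((∑ B ∈ Q i, B.enc.length : ℕ) : ℝ) ≤ S ∧
              BC {A | A ∈ G ∨ A ∈ Q i} (pf i)) →
            (2 : ℝ) ^ (((τ n).enc.length : ℝ) ^ ε) ≤ L := by
  obtain ⟨J, hJ⟩ := paramsE (e / 2) (by linarith)
  obtain ⟨y, m, hy, hm, hpar⟩ := hJ (2 * dgf J + 14)
  obtain ⟨d, C, τ, h1, h2, h3, h4, h5, h6, ⟨Nf, h8⟩, h7⟩ :=
    final0E J (2 * dgf J + 14) y m (m + (y + (2 * dgf J + 14)) * J + 1) rfl hy hm rfl
  set c1 : ℕ := 2 * dgf J + 14 with hc1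
  set A : ℕ := m + (y + c1) * J + 1 with hA
  have hA1 : 1 ≤ A := by omega
  have hA0 : (0 : ℝ) < (A : ℝ) := by exact_mod_cast hA1
  refine ⟨dgf J, 1 / (4 * (A : ℝ)), by positivity, d, C, τ, h1, h2, h3, h4, ?_, ?_, ?_⟩
  · refine tendsto_atTop_mono h5 ?_
    exact tendsto_pow_atTop_atTop_of_one_lt (by norm_num)
  · intro δ hδ F hF
    exact Pool.Agent.H90.UB.ub_final hF (dgf J) (le_trans (by norm_num) (one_le_dgf J)) _ A δ hδ
      d C τ h1 Nf h8 h6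
  intro ℓ
  filter_upwards [h7 ℓ, h6, eventually_ge_atTop 1] with n hn hub hn1
  intro Sch hS Ke q D hKe hqD L pf hpf hτ G Q w S hw hw2 hQ
  have hlb : (2 : ℝ) ^ n ≤ ((τ n).enc.length : ℝ) := by exact_mod_cast h5 n
  have hub' : ((τ n).enc.length : ℝ) ≤ ((2 : ℝ) ^ (n + 10)) ^ A := by exact_mod_cast hub
  generalize hx : ((τ n).enc.length : ℝ) = x at *
  have hx2 : (2 : ℝ) ≤ x := by
    refine le_trans ?_ hlb
    calc (2 : ℝ) = 2 ^ 1 := by norm_num
      _ ≤ 2 ^ n := pow_le_pow_right₀ (by norm_num) hn1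
  have hx0 : (0 : ℝ) < x := by linarith
  have hx1 : (1 : ℝ) ≤ x := by linarith
  have hlogx : 0 < Real.log x := Real.log_pos (by linarith)
  set u : ℝ := ((G.card : ℝ) + 1) * (w + 1) with hu
  have hG1 : (1 : ℝ) ≤ (G.card : ℝ) + 1 := by
    have := Nat.cast_nonneg (α := ℝ) G.card
    linarith
  have hu1 : 1 ≤ u := by
    have h9 : (1 : ℝ) ≤ (w : ℝ) + 1 := by
      have := Nat.cast_nonneg (α := ℝ) w
      linarith
    rw [hu]
    exact one_le_mul_of_one_le_of_one_le hG1 h9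
  have hu0 : 0 < u := by linarith
  have hlu : 0 ≤ Real.log u := Real.log_nonneg hu1
  have hlu2 : Real.log u ≤ (1 - e) * Real.log x := by
    rw [← Real.log_rpow hx0]
    exact Real.log_le_log hu0 hw
  set r : ℝ := Real.log u / Real.log x with hr
  have hr0 : 0 ≤ r := div_nonneg hlu hlogx.le
  have hr1 : r ≤ 1 - e := by
    rw [hr, div_le_iff₀ hlogx]
    exact hlu2
  have hux : u = x ^ r := by
    rw [Real.rpow_def_of_pos hx0, hr, mul_div_cancel₀ _ hlogx.ne', Real.exp_log hu0]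
  obtain ⟨j, hj, hj1, hj2⟩ := hpar (e / 2 + r) (by linarith) (by linarith)
  set b : ℝ := (2 : ℝ) ^ (n + 10) with hb
  have hb1 : 1 ≤ b := by
    rw [hb]
    exact one_le_pow₀ (by norm_num)
  have hb0 : 0 < b := by linarith
  have hM : 16 ≤ m + (y + c1) * j := by
    have : 0 ≤ (y + c1) * j := Nat.zero_le _
    omega
  have hMc : ((m + (y + c1) * j - 16 : ℕ) : ℝ) = ((m + (y + c1) * j : ℕ) : ℝ) - 16 := by
    rw [Nat.cast_sub hM]
    norm_num
  have hS0 : 0 ≤ S := by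
    obtain ⟨i, _⟩ := hτ
    exact le_trans (Nat.cast_nonneg _) (hQ i).2.1
  have hxε : x ^ (1 / (4 * (A : ℝ))) ≤ (2 : ℝ) ^ (((n + 10 : ℕ) : ℝ) * (1 / 4)) := by
    have e2 : x ^ (1 / (4 * (A : ℝ))) ≤ (b ^ A) ^ (1 / (4 * (A : ℝ))) :=
      Real.rpow_le_rpow hx0.le hub' (by positivity)
    have e3 : (b ^ A) ^ (1 / (4 * (A : ℝ))) = b ^ (1 / 4 : ℝ) := by
      rw [← Real.rpow_natCast b A, ← Real.rpow_mul hb0.le]
      congr 1
      field_simp
    have e4 : b ^ (1 / 4 : ℝ) = (2 : ℝ) ^ (((n + 10 : ℕ) : ℝ) * (1 / 4)) := by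
      rw [hb, ← Real.rpow_natCast, ← Real.rpow_mul (by norm_num)]
    rw [e3, e4] at e2
    exact e2
  have hKe8 : Ke ≤ 2 ^ (n + 8) := by
    have e5 : (Ke : ℝ) ≤ (2 : ℝ) ^ (n + 8) := by
      refine (hKe.trans hxε).trans ?_
      rw [← Real.rpow_natCast]
      apply Real.rpow_le_rpow_of_exponent_le (by norm_num)
      push_cast
      have := Nat.cast_nonneg (α := ℝ) n
      linarith
    exact_mod_cast e5
  have key := hn j hj Sch hS Ke q D hqD hKe8 L pf hpf hτ G Q w ⌊S⌋₊ ?_ ?_ ?_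
  · -- conclusion
    have e1 : x ^ (1 / (4 * (A : ℝ))) ≤ (2 : ℝ) ^ (n + 9) := by
      refine hxε.trans ?_
      rw [← Real.rpow_natCast]
      apply Real.rpow_le_rpow_of_exponent_le (by norm_num)
      push_cast
      have := Nat.cast_nonneg (α := ℝ) n
      linarith
    have e5 : (2 : ℝ) ^ (x ^ (1 / (4 * (A : ℝ)))) ≤ (2 : ℝ) ^ (((2 ^ (n + 9) : ℕ)) : ℝ) := by
      apply Real.rpow_le_rpow_of_exponent_le (by norm_num)
      push_cast
      exact e1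
    refine e5.trans ?_
    rw [Real.rpow_natCast]
    exact_mod_cast key
  · -- first inequality
    have e1 : u ≤ b ^ (m + (y + c1) * j - 16) := by
      rw [hux]
      refine (Real.rpow_le_rpow hx0.le hub' hr0).trans ?_
      rw [← Real.rpow_natCast b A, ← Real.rpow_mul hb0.le,
        ← Real.rpow_natCast b (m + (y + c1) * j - 16)]
      apply Real.rpow_le_rpow_of_exponent_le hb1
      rw [hMc]
      have e2 : (A : ℝ) * (e / 2 + r - e / 2) = A * r := by ring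
      rw [← e2]
      exact hj1
    rw [hu, hb] at e1
    exact_mod_cast e1
  · -- second inequality
    have e1 : ((G.card : ℝ) + 1) * S ≤ x ^ (2 - (e / 2 + r) - e / 2) := by
      have e2 : ((G.card : ℝ) + 1) * S * u ≤ x ^ (2 - e) := by
        refine le_trans (le_of_eq ?_) hw2
        rw [hu]
        ring
      have e3 : x ^ (2 - e) = x ^ (2 - (e / 2 + r) - e / 2) * u := by
        rw [hux, ← Real.rpow_add hx0]
        congr 1
        ring
      rw [e3] at e2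
      exact le_of_mul_le_mul_right e2 hu0
    have e4 : ((G.card : ℝ) + 1) * (⌊S⌋₊ : ℝ) ≤ ((G.card : ℝ) + 1) * S :=
      mul_le_mul_of_nonneg_left (Nat.floor_le hS0) (by linarith)
    have e5 : x ^ (2 - (e / 2 + r) - e / 2) ≤
        b ^ (2 * y * (J - j) + (m + (y + c1) * j - 16)) := by
      refine (Real.rpow_le_rpow hx0.le hub' (by linarith)).trans ?_
      rw [← Real.rpow_natCast b A, ← Real.rpow_mul hb0.le,
        ← Real.rpow_natCast b (2 * y * (J - j) + (m + (y + c1) * j - 16))]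
      apply Real.rpow_le_rpow_of_exponent_le hb1
      have e7 : ((2 * y * (J - j) + (m + (y + c1) * j - 16) : ℕ) : ℝ) =
          2 * (y : ℝ) * ((J - j : ℕ) : ℝ) + (((m + (y + c1) * j : ℕ) : ℝ) - 16) := by
        rw [Nat.cast_add, hMc, Nat.cast_mul, Nat.cast_mul, Nat.cast_ofNat]
      rw [e7]
      refine hj2.trans (le_of_eq ?_)
      ring
    have e6 := (e4.trans e1).trans e5
    rw [hb] at e6
    exact_mod_cast e6
  · intro i
    obtain ⟨q1, q2, q3⟩ := hQ i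
    refine ⟨q1, ?_, q3⟩
    apply Nat.le_floor
    refine le_trans ?_ q2
    exact_mod_cast Finset.sum_le_sum fun B _ => len_le_enc B

end Pool.Agent.H90.PC
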